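import Pool.Agent.W525.CB.Stm2

/-! Project CB (helper525): the coordinates in the function field of `X`. -/

set_option autoImplicit false

open AlgebraicGeometry CategoryTheory Order

namespace Pool.Agent.W143.CB

open Pool.Agent.W525.CB

lemma locIn_generic {X : Scheme.{0}} [IsIntegral X] {E : Type} [Field E]
    (κ : X.functionField →+* E) (φ : X.functionField) : κ φ ∈ locIn κ (genericPoint X) := by
  obtain ⟨U, hU, s, hs⟩ := TopCat.Presheaf.exists_germ_eq X.presheaf φ
  refine ⟨X.presheaf.germ U (genericPoint X) hU s, ?_⟩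
  have : Nonempty U := ⟨⟨_, hU⟩⟩
  rw [RingHom.comp_apply]
  congr 1
  have h := Scheme.algebraMap_germ_eq_germToFunctionField (X := X) hU s
  rw [h, ← hs]

section field

variable {n : ℕ} {k E K : Type} [Field k] [Field E] [Algebra k E] [Field K] [Algebra k K]
  (x y : Fin (n + 3) → E) (κ : K →ₐ[k] E)

lemma key (hE : EDat n k E x y) (hr : κ.fieldRange = FX k x y) :
    ∃ X Y : Fin (n + 3) → K,
    Dat X Y ∧ X 0 = 1 ∧ (∀ i, κ (X i) = x i / x 0) ∧ (∀ i, κ (Y i) = y i) ∧
    (∀ σ i, κ (ss X σ i) = ss x σ i) ∧ (∀ σ i, κ (tt X Y σ i) = tt x y σ i) ∧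
    (∀ σ i, κ (ww X Y σ i) = ww x y σ i) := by
  have hinj : Function.Injective κ := κ.toRingHom.injective
  have h1 : ∀ i, ∃ X, κ X = x i / x 0 := fun i => by
    have : x i / x 0 ∈ κ.fieldRange := by
      rw [hr]
      exact IntermediateField.subset_adjoin _ _ (Or.inl ⟨i, rfl⟩)
    exact this
  have h2 : ∀ i, ∃ Y, κ Y = y i := fun i => by
    have : y i ∈ κ.fieldRange := by
      rw [hr]
      exact IntermediateField.subset_adjoin _ _ (Or.inr ⟨i, rfl⟩)
    exact this
  choose X hX using h1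
  choose Y hY using h2
  have hx0 : x 0 ≠ 0 := hE.dat.nx 0
  have huu : ∀ i j, κ (uu X Y i j) = uu x y i j / x 0 ^ 2 := by
    intro i j
    unfold uu
    rw [map_sub, map_mul, map_mul, map_pow, map_pow, hX, hX, hY, hY]
    field_simp
  have hss : ∀ σ i, κ (ss X σ i) = ss x σ i := by
    intro σ i
    unfold ss
    rw [map_div₀, hX, hX, div_div_div_cancel_right₀ hx0]
  have htt : ∀ σ i, κ (tt X Y σ i) = tt x y σ i := by
    intro σ i
    unfold tt
    rw [map_div₀, huu, huu, div_div_div_cancel_right₀ (pow_ne_zero 2 hx0)]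
  refine ⟨X, Y, ⟨?_, ?_, ?_, ?_⟩, ?_, hX, hY, hss, htt, ?_⟩
  · apply hinj
    rw [map_sum, map_zero]
    have h3 : ∀ i, κ (X i ^ (2 * n + 5)) = x i ^ (2 * n + 5) / x 0 ^ (2 * n + 5) := fun i => by
      rw [map_pow, hX, div_pow]
    rw [Finset.sum_congr rfl fun i _ => h3 i, ← Finset.sum_div, hE.dat.fermat, zero_div]
  · apply hinj
    rw [map_sum, map_zero]
    have h3 : ∀ i, κ (X i * Y i ^ (n + 2)) = x i * y i ^ (n + 2) / x 0 := fun i => by
      rw [map_mul, map_pow, hX, hY]
      ring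
    rw [Finset.sum_congr rfl fun i _ => h3 i, ← Finset.sum_div, hE.dat.tang, zero_div]
  · intro i h
    have h3 := hX i
    rw [h, map_zero] at h3
    exact div_ne_zero (hE.dat.nx i) hx0 h3.symm
  · intro i j hij h
    have h3 := huu i j
    rw [h, map_zero] at h3
    exact div_ne_zero (hE.dat.nu i j hij) (pow_ne_zero 2 hx0) h3.symm
  · apply hinj
    rw [hX, map_one, div_self hx0]
  · intro σ i
    unfold ww
    rw [map_sub, map_mul, map_pow, map_pow, hss, hss, htt]

lemma key_adj (X Y : Fin (n + 3) → K) (hss : ∀ σ i, κ (ss X σ i) = ss x σ i)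
    (htt : ∀ σ i, κ (tt X Y σ i) = tt x y σ i) (σ : Equiv.Perm (Fin (n + 3))) :
    κ '' (Set.range (ss X σ) ∪ Set.range (tt X Y σ)) =
      Set.range (ss x σ) ∪ Set.range (tt x y σ) := by
  rw [Set.image_union, ← Set.range_comp, ← Set.range_comp]
  congr 2
  · funext i
    exact hss σ i
  · funext i
    exact htt σ i

end field

theorem main : S_ALIFX := by
  intro parts n k E _ _ _ _ _ _ x y hn hE M
  let _ : Algebra k M.X.functionField := (kmap M.f).toAlgebra
  let κ : M.X.functionField →ₐ[k] E := { M.κ with commutes' := M.scal }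
  have hκ : ∀ φ, κ φ = M.κ φ := fun _ => rfl
  have hinj : Function.Injective κ := κ.toRingHom.injective
  -- the chart of `σ`
  have hne : ∀ σ : Equiv.Perm (Fin (n + 3)), σ 0 ≠ σ 1 := fun σ h => by
    have := σ.injective h
    simp at this
  have hch : ∀ (σ : Equiv.Perm (Fin (n + 3))) (a : IX n), a.1 = (σ 0, σ 0, σ 1) →
      secIn M.κ (M.U a) = (AX k x y σ : Set E) := by
    intro σ a ha
    rw [M.sec a, (parts.ch n k E x y hE.dat).1 σ a ha]
  let a1 : ∀ σ : Equiv.Perm (Fin (n + 3)), IX n := fun σ => ⟨(σ 0, σ 0, σ 1), hne σ⟩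
  have hff := (parts.ff n k E x y hn hE).1
  have hAF : ∀ σ, (AX k x y σ : Set E) ⊆ FX k x y := by
    intro σ e he
    rw [← hff σ]
    exact IntermediateField.algebra_adjoin_le_adjoin k _ he
  have hr : κ.fieldRange = FX k x y := by
    apply le_antisymm
    · rintro e ⟨φ, rfl⟩
      obtain ⟨b, s, hb, hs, -, -, he⟩ := (parts.loc M.X E M.κ (M.U (a1 1)) (M.affine _)
        (genericPoint M.X) (M.gen _)).2 _ (locIn_generic M.κ φ)
      rw [hch 1 (a1 1) rfl] at hb hs
      have h3 : κ φ = b / s := he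
      show κ φ ∈ FX k x y
      rw [h3]
      exact div_mem (hAF 1 hb) (hAF 1 hs)
    · rw [← hff 1]
      refine IntermediateField.adjoin_le_iff.2 ?_
      intro e he
      have h3 : e ∈ secIn M.κ (M.U (a1 1)) := by
        rw [hch 1 (a1 1) rfl]
        exact Algebra.subset_adjoin he
      obtain ⟨hη, s, hs⟩ := h3
      exact ⟨_, hs⟩
  obtain ⟨X, Y, hD, hX0, hX, hY, hss, htt, hww⟩ := key x y κ hE hr
  refine ⟨X, Y, hD, hX0, hX, hY, hss, htt, hww, ?_, ?_, ?_⟩
  · refine (parts.tr n k E x y hn hE).1.trans ?_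
    rw [← hr]
    exact (AlgEquiv.trdeg_eq (AlgEquiv.ofInjectiveField κ)).ge
  · intro σ
    apply IntermediateField.map_injective κ
    rw [IntermediateField.adjoin_map, key_adj x y κ X Y hss htt σ, hff σ, ← hr,
      AlgHom.fieldRange_eq_map]
  · intro σ a ha P hP
    have hmap : (Algebra.adjoin k (Set.range (ss X σ) ∪ Set.range (tt X Y σ))).map κ =
        AX k x y σ := by
      rw [AlgHom.map_adjoin, key_adj x y κ X Y hss htt σ]
      rfl
    have hloc := parts.loc M.X E M.κ (M.U a) (M.affine a) P hP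
    rw [hch σ a ha] at hloc
    have hback : ∀ φ, M.κ φ ∈ locIn M.κ P →
        φ ∈ (algebraMap (M.X.presheaf.stalk P) M.X.functionField).range := by
      rintro φ ⟨r, hr'⟩
      exact ⟨r, hinj hr'⟩
    constructor
    · intro e he
      refine hback e (hloc.1 ?_)
      rw [← hmap]
      exact ⟨e, he, rfl⟩
    · intro r
      obtain ⟨b', s', hb, hs, hs0, hsi, he⟩ := hloc.2
        (M.κ (algebraMap (M.X.presheaf.stalk P) M.X.functionField r)) ⟨r, rfl⟩
      rw [← hmap] at hb hs
      obtain ⟨b, hb, rfl⟩ := hb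
      obtain ⟨s, hs, rfl⟩ := hs
      have hs0' : s ≠ 0 := by
        rintro rfl
        exact hs0 (map_zero κ)
      refine ⟨b, s, hb, hs, hs0', ?_, ?_⟩
      · refine hback _ ?_
        have h3 : M.κ s⁻¹ = (κ s)⁻¹ := map_inv₀ κ s
        rw [h3]
        exact hsi
      · apply hinj
        rw [map_div₀]
        exact he

end Pool.Agent.W143.CB
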